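import Pool.Agent.X50.ErrQuad

set_option autoImplicit false

/-!
# The error term in Conjecture F

For every quadratic polynomial of Conjecture F, in every short interval, the error term of the formula
`π_f(N) ~ C ∫_2^N dt / log t` is at least a constant times `C log log`, also in arithmetic progressions and for
every other main term which grows as fast. It rests on the theorem
`Pool.Agent.H474R2.PG.composite_strings` of the starting library (strings of `c log Y log log Y` consecutive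
composite values of an irreducible polynomial in every interval of length `Y`).
-/

namespace Pool.Agent.Results.MP_a17b09_nt.ErrorTermOmega

open Finset

open scoped Classical in
/-- `P a b c q r N` is the number of `1 ≤ n ≤ N`, `n ≡ r` modulo `q`, for which `a n² + b n + c` is prime. -/
noncomputable def P (a b c : ℤ) (q r N : ℕ) : ℕ :=
  ((Icc 1 N).filter (fun n : ℕ => n ≡ r [MOD q] ∧
    ∃ p : ℕ, p.Prime ∧ a * (n : ℤ) ^ 2 + b * n + c = p)).card

/-- Let `f(t) = a t² + b t + c`, `a > 0`, `gcd(a, b, c) = 1`, where the discriminant is not a square, and let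
`f(r)` be prime to `q` (`q = 1` is the case of all `n`). There are `κ > 0` and `Y₀` such that for all `C ≥ 0`, all
`Y ≥ Y₀` and all integers `x ≥ Y`: some integer `N` with `x ≤ N ≤ x + Y` satisfies
`|P(N) - C ∫_2^N dt / log t| ≥ κ C (log Y / log x) log log Y`; and the same is true of `|P(N) - M(N)|`
for every function `M` with `M(n + 1) - M(n) ≥ C / log x` for `x ≤ n ≤ x + Y - 1`. -/
theorem result (a b c : ℤ) (ha : 0 < a) (hg : Int.gcd (Int.gcd a b : ℤ) c = 1)
    (hD : ¬ IsSquare (b ^ 2 - 4 * a * c)) (q r : ℕ) (hq : 1 ≤ q)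
    (hqr : Int.gcd (q : ℤ) (a * (r : ℤ) ^ 2 + b * r + c) = 1) :
    ∃ κ : ℝ, 0 < κ ∧ ∃ Y₀ : ℝ,
      (∀ (C Y : ℝ) (x : ℕ), 0 ≤ C → Y₀ ≤ Y → Y ≤ x → ∃ N : ℕ, x ≤ N ∧ (N : ℝ) ≤ x + Y ∧
        κ * C * (Real.log Y / Real.log x) * Real.log (Real.log Y) ≤
          |(P a b c q r N : ℝ) - C * ∫ t in (2 : ℝ)..(N : ℝ), 1 / Real.log t|) ∧
      (∀ (C Y : ℝ) (x : ℕ) (M : ℕ → ℝ), 0 ≤ C → Y₀ ≤ Y → Y ≤ x →
        (∀ n : ℕ, x ≤ n → ((n + 1 : ℕ) : ℝ) ≤ x + Y → C / Real.log x ≤ M (n + 1) - M n) →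
        ∃ N : ℕ, x ≤ N ∧ (N : ℝ) ≤ x + Y ∧
          κ * C * (Real.log Y / Real.log x) * Real.log (Real.log Y) ≤
            |(P a b c q r N : ℝ) - M N|) := by
  have hqr' : IsCoprime (q : ℤ) (a * (r : ℤ) ^ 2 + b * r + c) := Int.isCoprime_iff_gcd_eq_one.2 hqr
  obtain ⟨κ₁, h1, Y₁, H1⟩ := Pool.Agent.X50.ErrQuad.omegaLi a b c q r ha hg hD hq hqr'
  obtain ⟨κ₂, h2, Y₂, H2⟩ := Pool.Agent.X50.ErrQuad.omega a b c q r ha hg hD hq hqr'
  have hmin : ∀ (κ C Y : ℝ) (x : ℕ), 0 ≤ C → max (max Y₁ Y₂) 3 ≤ Y → Y ≤ x → min κ₁ κ₂ ≤ κ →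
      min κ₁ κ₂ * C * (Real.log Y / Real.log x) * Real.log (Real.log Y) ≤
        κ * C * (Real.log Y / Real.log x) * Real.log (Real.log Y) := by
    intro κ C Y x hC hY hx hκ
    have hY3 : (3 : ℝ) ≤ Y := (le_max_right _ _).trans hY
    have hlY : 1 < Real.log Y := by
      rw [Real.lt_log_iff_exp_lt (by linarith)]
      linarith [Real.exp_one_lt_d9]
    have hllY : 0 < Real.log (Real.log Y) := Real.log_pos hlY
    have hlx : 0 < Real.log x := Real.log_pos (by linarith)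
    gcongr
  refine ⟨min κ₁ κ₂, lt_min h1 h2, max (max Y₁ Y₂) 3, ?_, ?_⟩
  · intro C Y x hC hY hx
    obtain ⟨N, hN1, hN2, hN3⟩ := H1 C Y x hC
      (((le_max_left _ _).trans (le_max_left _ _)).trans hY) hx
    exact ⟨N, hN1, hN2, (hmin κ₁ C Y x hC hY hx (min_le_left _ _)).trans hN3⟩
  · intro C Y x M hC hY hx hM
    obtain ⟨N, hN1, hN2, hN3⟩ := H2 C Y x M hC
      (((le_max_right _ _).trans (le_max_left _ _)).trans hY) hx hM
    exact ⟨N, hN1, hN2, (hmin κ₂ C Y x hC hY hx (min_le_right _ _)).trans hN3⟩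

end Pool.Agent.Results.MP_a17b09_nt.ErrorTermOmega
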