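import Pool.Agent.X32.Uni.Kill2

/-!
# Polynomials at Chen-type arguments, with a prescribed exact pattern

Let `f_1, ..., f_m` be nonconstant integer polynomials (for instance quadratic polynomials as in Conjecture F, together
with two linear polynomials) whose product has no fixed prime divisor, two of them, `f_i ≠ ± f_j`, linear, and let `G`
be an ARBITRARY finite set of nonzero integer polynomials each of which has a complex zero which is not a zero of
`f_1 ... f_m`. There are `C`, `t` and `κ > 0` such that, for all large `X`, every interval `(A, B]` with `B ≤ X`,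
`B - A ≥ θ X` contains at least `κ (B - A) V` integers `n` for which
* `|f_i(n)|` is prime and `|f_j(n)|` is a product of at most two primes `> X ^ (1 / 9)`,
* all `|f_l(n)|` are products of at most `t deg f_l` primes `> X ^ (1 / t)`,
* `g(n)` has a prime factor `≤ C` for EVERY `g ∈ G`.
Here `V = ∏_{p ≤ X} (1 - ω(p) / p)` is the product of the local densities of the system, i.e. the expected order of
magnitude. For every `s`, `δ > 0` and every colouring with `r` colours all but `δ (B - A) V` of these `n` are covered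
by pairwise disjoint monochromatic progressions of `s` such `n` with differences `≤ (log X) ^ c`.

For example let `f` be a quadratic polynomial whose discriminant is not a square such that `t (t + b) f(t)` has no
fixed prime divisor, and let `G` consist of the `t + h`, `h ≠ 0, b`, and the `f(t + h)`, `h ≠ 0`, `|h| ≤ L`: then `t`
is prime, `t + b` is a `P_2`, `f(t)` is almost prime, and no neighbour is, neither in the sequence of the integers nor
in that of the values of `f`.
-/

set_option autoImplicit false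

namespace Pool.Agent.Results.MP_a17b09_nt.ExactChenPatterns

open Finset
open scoped Polynomial

variable {m : ℕ}

/-- no prime divides all the values of the product of the polynomials -/
def Admissible (f : Fin m → ℤ[X]) : Prop := ∀ p : ℕ, p.Prime → ∃ x : ℤ, ¬ (p : ℤ) ∣ ∏ l, (f l).eval x

/-- `ω(p)`: the number of the zeros of the product modulo `p` -/
noncomputable def omega (f : Fin m → ℤ[X]) (p : ℕ) : ℕ :=
  ((range p).filter (fun x : ℕ => (p : ℤ) ∣ ∏ l, (f l).eval (x : ℤ))).card

/-- the product of `1 - ω(p) / p` over the primes `p ≤ X` -/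
noncomputable def V (f : Fin m → ℤ[X]) (X : ℕ) : ℝ := ∏ p ∈ (Icc 1 X).filter Nat.Prime, (1 - (omega f p : ℝ) / p)

/-- `|v| > 1`, and `|v|` is a product of at most `r` primes, all of them larger than `y` -/
def Almost (r : ℕ) (y : ℝ) (v : ℤ) : Prop :=
  1 < |v| ∧ v.natAbs.primeFactorsList.length ≤ r ∧ ∀ q : ℕ, q.Prime → (q : ℤ) ∣ v → y < q

open Classical in
/-- the integers `n` of `(A, B]` described above -/
noncomputable def Good (f : Fin m → ℤ[X]) (G : Finset ℤ[X]) (i j : Fin m) (C t X A B : ℕ) : Finset ℕ :=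
  (Ioc A B).filter (fun n : ℕ => ((f i).eval (n : ℤ)).natAbs.Prime ∧
    Almost 2 ((X : ℝ) ^ (1 / 9 : ℝ)) ((f j).eval (n : ℤ)) ∧
    (∀ l, Almost (t * (f l).natDegree) ((X : ℝ) ^ (1 / (t : ℝ))) ((f l).eval (n : ℤ))) ∧
    ∀ g ∈ G, ∃ q : ℕ, q.Prime ∧ q ≤ C ∧ (q : ℤ) ∣ g.eval (n : ℤ))

/-- the terms `a, a + b, ..., a + (s - 1) b` of the progression `z = (a, b)` -/
def terms (s : ℕ) (z : ℕ × ℕ) : Finset ℕ := (range s).image (fun i => z.1 + i * z.2)

theorem result (f : Fin m → ℤ[X]) (hdeg : ∀ l, 1 ≤ (f l).natDegree) (hf : Admissible f) (i j : Fin m)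
    (hi : (f i).natDegree = 1) (hj : (f j).natDegree = 1) (hij : f j ≠ f i) (hij' : f j ≠ - f i)
    (G : Finset ℤ[X])
    (hG : ∀ g ∈ G, g ≠ 0 ∧ ∃ α : ℂ, Polynomial.aeval α g = 0 ∧ ∀ l, Polynomial.aeval α (f l) ≠ 0) :
    ∃ C t : ℕ, 1 ≤ t ∧ ∃ κ : ℝ, 0 < κ ∧ ∀ (s r : ℕ) (θ δ : ℝ), 1 ≤ s → 0 < θ → 0 < δ → ∃ c X₀ : ℕ, ∀ X : ℕ, X₀ ≤ X →
      κ / Real.log X ^ (∑ l, (f l).natDegree) ≤ V f X ∧ ∀ A B : ℕ, B ≤ X → θ * X ≤ (B : ℝ) - A →
        κ * ((B : ℝ) - A) * V f X ≤ ((Good f G i j C t X A B).card : ℝ) ∧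
        ∀ χ : ℕ → Fin r, ∃ P : Finset (ℕ × ℕ),
          (∀ z ∈ P, 1 ≤ z.2 ∧ (z.2 : ℝ) ≤ Real.log X ^ c ∧
            ∀ l < s, z.1 + l * z.2 ∈ Good f G i j C t X A B ∧ χ (z.1 + l * z.2) = χ z.1) ∧
          (P : Set (ℕ × ℕ)).PairwiseDisjoint (terms s) ∧
          (((Good f G i j C t X A B \ P.biUnion (terms s)).card : ℕ) : ℝ) ≤ δ * ((B : ℝ) - A) * V f X :=
  Pool.Agent.X32.Uni.killP f hdeg hf i j hi hj hij hij' G hG

end Pool.Agent.Results.MP_a17b09_nt.ExactChenPatterns
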