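import Pool.Agent.X30.PolyGap
import Pool.Agent.TH464.PO.QuadAP

/-!
# Poisson statistics of the almost prime values of quadratic polynomials and of systems of polynomials

Let `f` be an admissible quadratic polynomial (or a system of irreducible polynomials of any degrees
without a fixed prime divisor, no member of which is a translate of itself or of another one by a positive
integer). Call `m` good if no value `f i m` has a prime factor `≤ X ^ (1 / r)`, and let `V` be the sieve
density. If `r` is large in terms of `ε`, then in EVERY interval `(X, X + Y]` with `Y ≥ X ^ θ` the number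
of good integers in the windows `(n, n + T]` of bounded mean `T V` has the Poisson distribution up to `ε`,
and the distance from a good integer to the `k`-th good integer before it, divided by its mean,
has the Gamma distribution (the exponential distribution for `k = 1`) up to `ε`: this is what is expected
for the prime values.

Proof: the moments of the number of good integers in a window are sums over `k`-tuples of shifts, for which
the fundamental lemma of the sieve gives the asymptotic formula; the singular series of the tuples are `1` on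
average since by the resultants of `f i (x)` and `f j (x + t)` few primes have collisions (starting
library `Pool/Agent/TH464/PO`). The law of the gaps follows by differencing in `T`.
-/

set_option autoImplicit false

namespace Pool.Agent.Results.MP_a17b09_nt.PoissonStatistics

open Polynomial Finset Filter

/-- Finitely many distinct irreducible nonconstant polynomials with positive leading coefficients,
without a fixed prime divisor, such that `f i (x) = f j (x + t)` for no `i`, `j` (equal or not) and
`t ≥ 1`. -/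
structure PolySystem {ι : Type} [Fintype ι] (f : ι → ℤ[X]) : Prop where
  irreducible : ∀ i, Irreducible (f i)
  nonconstant : ∀ i, 0 < (f i).natDegree
  leading : ∀ i, 0 < (f i).leadingCoeff
  distinct : Function.Injective f
  noFixedDivisor : ∀ p : ℕ, p.Prime → ∃ m : ℕ, ∀ i, ¬ (p : ℤ) ∣ (f i).eval (m : ℤ)
  noTranslates : ∀ (i j : ι) (t : ℕ), 1 ≤ t → f i ≠ (f j).comp (X + C (t : ℤ))

/-- `m` is good: no value `f i m` has a prime factor `p ≤ N ^ (1 / r)`. -/
def Good {ι : Type} (f : ι → ℤ[X]) (r N m : ℕ) : Prop :=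
  ∀ p : ℕ, p.Prime → (p : ℝ) ≤ (N : ℝ) ^ (1 / (r : ℝ)) → ∀ i, ¬ (p : ℤ) ∣ (f i).eval (m : ℤ)

open Classical in
/-- `ω(p)`: the number of the `m` modulo `p` such that `p` divides some `f i m`. -/
noncomputable def omega {ι : Type} (f : ι → ℤ[X]) (p : ℕ) : ℕ :=
  ((range p).filter (fun m : ℕ => ∃ i, (p : ℤ) ∣ (f i).eval (m : ℤ))).card

/-- `V`: the product of `1 - ω(p) / p` over the primes `p ≤ N ^ (1 / r)`. -/
noncomputable def V {ι : Type} (f : ι → ℤ[X]) (r N : ℕ) : ℝ :=
  ∏ p ∈ (Icc 1 ⌊(N : ℝ) ^ (1 / (r : ℝ))⌋₊).filter Nat.Prime, (1 - (omega f p : ℝ) / p)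

open Classical in
/-- The number of the good integers in `(n, n + T]`. -/
noncomputable def window {ι : Type} (f : ι → ℤ[X]) (r N n T : ℕ) : ℕ :=
  ((Ioc n (n + T)).filter (fun m => Good f r N m)).card

open Classical in
/-- The number of the good integers in `[m - T, m)`. -/
noncomputable def before {ι : Type} (f : ι → ℤ[X]) (r N m T : ℕ) : ℕ :=
  ((Ico (m - T) m).filter (fun l => Good f r N l)).card

/-- The Poisson distribution. -/
noncomputable def poisson (x : ℝ) (j : ℕ) : ℝ := Real.exp (-x) * x ^ j / j.factorial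

/-- The admissible triples of the problem. -/
def Admissible (a b c : ℤ) : Prop :=
  0 < a ∧ (∀ p : ℕ, p.Prime → ¬ ((p : ℤ) ∣ a ∧ (p : ℤ) ∣ b ∧ (p : ℤ) ∣ c)) ∧
    ¬ (Even (a + b) ∧ Even c) ∧ ¬ IsSquare (b ^ 2 - 4 * a * c)

lemma good_iff {ι : Type} (f : ι → ℤ[X]) (r N m : ℕ) :
    Good f r N m ↔ Pool.Agent.TH464.PO.Sf (Pool.Agent.W123.RU.Poly.Q f) ⌊(N : ℝ) ^ (1 / (r : ℝ))⌋₊ m := by
  unfold Good Pool.Agent.TH464.PO.Sf Pool.Agent.W123.RU.Poly.Q Pool.Agent.H373R2.T7.pz
  constructor
  · intro h p hp hcon
    rw [mem_filter, mem_Icc] at hp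
    obtain ⟨i, hi⟩ := hcon
    exact h p hp.2 ((Nat.le_floor_iff (by positivity)).1 hp.1.2) i hi
  · intro h p hp hpN i hi
    exact h p (by
      rw [mem_filter, mem_Icc]
      exact ⟨⟨hp.one_lt.le, (Nat.le_floor_iff (by positivity)).2 hpN⟩, hp⟩) ⟨i, hi⟩

lemma V_eq {ι : Type} (f : ι → ℤ[X]) (r N : ℕ) :
    V f r N = Pool.Agent.W123.RP.Vq (Pool.Agent.W123.RU.Poly.Q f) ⌊(N : ℝ) ^ (1 / (r : ℝ))⌋₊ := by
  classical
  unfold V Pool.Agent.W123.RP.Vq Pool.Agent.H373R2.T7.pz omega Pool.Agent.H373R2.T7.nuB
    Pool.Agent.W123.RU.Poly.Q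
  refine Finset.prod_congr rfl fun p _ => ?_
  congr!

open Classical in
/-- **Poisson statistics of the almost prime values.**

(A) Let `f` be a system as above and let `θ, ε > 0`, `x₀` and `k₀` be given. There is `r₀` such that for
every `r ≥ r₀`, all large `N` and every `Y ≥ N ^ θ`, with `V = V f r N`:
* for all `T` with `T V ≤ x₀` and every finite set `A` the number of the `n` in `(N, N + Y]` such that the
  number of good integers in `(n, n + T]` belongs to `A` is `Y ∑_{j ∈ A} e ^ (-T V) (T V) ^ j / j!` up to an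
  error of at most `ε Y`;
* for all `k` and `T` such that `k ≤ k₀` or `T V ≤ x₀` the number of the good `m` in `(N, N + Y]` with
  fewer than `k` good integers in `[m - T, m)`, that is, with a distance larger than `T` to the
  `k`-th good integer before `m`, is `Y V ∑_{j < k} e ^ (-T V) (T V) ^ j / j!` up to an error of at most
  `ε Y V`.

(B) For every admissible triple `(a, b, c)` the polynomial `a t ² + b t + c` is such a system. -/
theorem result :
    (∀ (ι : Type) [Fintype ι] [Nonempty ι] (f : ι → ℤ[X]), PolySystem f →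
      ∀ (θ ε x₀ : ℝ) (k₀ : ℕ), 0 < θ → 0 < ε →
      ∃ r₀ : ℕ, ∀ r : ℕ, r₀ ≤ r → ∀ᶠ N : ℕ in atTop, ∀ Y : ℕ, (N : ℝ) ^ θ ≤ Y →
        (∀ T : ℕ, T * V f r N ≤ x₀ → ∀ A : Finset ℕ,
          |(((Ioc N (N + Y)).filter (fun n => window f r N n T ∈ A)).card : ℝ) -
            Y * ∑ j ∈ A, poisson (T * V f r N) j| ≤ ε * Y) ∧
        (∀ k T : ℕ, (k ≤ k₀ ∨ T * V f r N ≤ x₀) →
          |(((Ioc N (N + Y)).filter (fun m => Good f r N m ∧ before f r N m T < k)).card : ℝ) -
            Y * V f r N * ∑ j ∈ range k, poisson (T * V f r N) j| ≤ ε * (Y * V f r N))) ∧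
    (∀ a b c : ℤ, Admissible a b c → PolySystem (fun _ : Fin 1 => C a * X ^ 2 + C b * X + C c)) := by
  constructor
  · intro ι _ _ f hS θ ε x₀ k₀ hθ hε
    have hf : Pool.Agent.W123.RU.Poly.Sys f :=
      ⟨hS.irreducible, hS.nonconstant, hS.leading, hS.distinct, hS.noFixedDivisor⟩
    have hT : Pool.Agent.TH464.PO.NoTr f := hS.noTranslates
    obtain ⟨r1, h1⟩ := Pool.Agent.TH464.PO.poisson_all f hf hT θ hθ x₀ ε hε
    obtain ⟨r2, h2⟩ := Pool.Agent.X30.PG.poly_gap f hf hT θ hθ k₀ x₀ ε hε
    refine ⟨max r1 r2, fun r hr => ?_⟩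
    filter_upwards [h1 r ((le_max_left _ _).trans hr), h2 r ((le_max_right _ _).trans hr)]
      with N h3 h4
    intro Y hNY
    have hgood : (fun m => Good f r N m) =
        fun m => Pool.Agent.TH464.PO.Sf (Pool.Agent.W123.RU.Poly.Q f) ⌊(N : ℝ) ^ (1 / (r : ℝ))⌋₊ m := by
      funext m
      exact propext (good_iff f r N m)
    constructor
    · intro T hTx A
      rw [V_eq] at hTx ⊢
      have h5 := h3 Y hNY T hTx A
      have e1 : (Ioc N (N + Y)).filter (fun n => window f r N n T ∈ A) =
          (Ioc N (N + Y)).filter (fun n =>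
            Pool.Agent.TH464.PO.Np f ⌊(N : ℝ) ^ (1 / (r : ℝ))⌋₊ T n ∈ A) := by
        refine Finset.filter_congr fun n _ => ?_
        unfold window Pool.Agent.TH464.PO.Np
        rw [Finset.filter_congr fun m _ => good_iff f r N m]
      rw [e1]
      unfold poisson
      exact h5
    · intro k T hkT
      rw [V_eq] at hkT ⊢
      have h5 := h4 Y hNY k T hkT
      have e1 : (Ioc N (N + Y)).filter (fun m => Good f r N m ∧ before f r N m T < k) =
          (Ioc N (N + Y)).filter (fun b =>
            Pool.Agent.TH464.PO.Sf (Pool.Agent.W123.RU.Poly.Q f) ⌊(N : ℝ) ^ (1 / (r : ℝ))⌋₊ b ∧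
            ((Ico (b - T) b).filter
              (Pool.Agent.TH464.PO.Sf (Pool.Agent.W123.RU.Poly.Q f)
                ⌊(N : ℝ) ^ (1 / (r : ℝ))⌋₊)).card < k) := by
        refine Finset.filter_congr fun m _ => ?_
        unfold before
        rw [Finset.filter_congr fun l _ => good_iff f r N l, good_iff f r N m]
      rw [e1]
      unfold Pool.Agent.TH464.PO.Pk Pool.Agent.TH464.PO.Ck Pool.Agent.TH464.PO.pw at h5
      unfold poisson
      exact h5
  · intro a b c ⟨ha, hg, hpar, hD⟩
    have h1 := Pool.Agent.TH464.PO.qs_sys a b c ha hg hpar hD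
    have h2 := Pool.Agent.TH464.PO.qs_noTr a b c ha
    exact ⟨h1.irr, h1.deg, h1.lead, h1.inj, h1.adm, h2⟩

end Pool.Agent.Results.MP_a17b09_nt.PoissonStatistics
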